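import Pool.Agent.H73.GWQ.Stmts

set_option autoImplicit false

open Classical

namespace GWQ

theorem TRN {G V : Type*} [Group G] (D : QM G V) (h1 : H4QStmt D) : TRNStmt D := by
  intro h u p z R a hR hu hz hp hq
  simp only [QM.nm] at *
  have e1 : D.d h (h * z) = D.d 1 z := by
    have := D.inv h 1 z
    rwa [mul_one] at this
  have e2 : D.d (h * p) (h * z) = D.d p z := D.inv h p z
  have e2' : D.d (h * z) (h * p) = D.d p z := by rw [D.inv, D.comm]
  have e3 : D.d (h * p) h = D.d 1 p := by
    have := D.inv h p 1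
    rw [mul_one, D.comm p 1] at this
    exact this
  have e3' : D.d h (h * p) = D.d 1 p := by rw [D.comm, e3]
  have a1 := h1 1 (h * p) h (h * z)
  have a2 := h1 1 (h * z) (h * p) u
  rw [e1, e2, e3] at a1
  rw [e2'] at a2
  have t1 := D.tri 1 (h * p) h
  have t1' := D.tri h 1 (h * p)
  rw [e3', D.comm h 1] at t1'
  have t2 := D.tri (h * p) u (h * z)
  rw [e2, D.comm u (h * z)] at t2
  rcases max_cases (D.d 1 h + D.d p z) (D.d 1 (h * z) + D.d 1 p) with m1 | m1 <;>
  rcases max_cases (D.d 1 (h * p) + D.d (h * z) u) (D.d 1 u + D.d p z) with m2 | m2 <;>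
  omega

end GWQ
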